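import Pool.Agent.W544.PG.Defs

/-! # Project PG: (TOP) and (FIN) -/

open Matrix Finset Module

namespace Pool.Agent.W85.PG

open Pool.Agent.W544.PG

theorem top : S_top := by
  intro p q G hp hA hB hcase
  rcases hcase with rfl | ⟨hq, hst⟩
  · by_contra hne
    obtain ⟨φ, hφ, hle⟩ := Submodule.exists_le_ker_of_lt_top G.h1 (lt_top_iff_ne_top.mpr hne)
    apply hφ
    have hex : ∀ F : Matrix (Fin 1) (Fin q) ℂ, φ F = ∑ j, F 0 j * φ (single 0 j 1) := by
      intro F
      conv_lhs => rw [matrix_eq_sum_single F]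
      rw [Fin.sum_univ_one, map_sum]
      refine Finset.sum_congr rfl fun j _ => ?_
      have : single (0 : Fin 1) j (F 0 j) = F 0 j • single (0 : Fin 1) j (1 : ℂ) := by
        rw [smul_single, smul_eq_mul, mul_one]
      rw [this, map_smul, smul_eq_mul]
    have hu := hB (fun j => φ (single 0 j 1)) (by
      intro F hF
      funext i
      have h1 : φ F = 0 := hle hF
      rw [hex] at h1
      have hi : i = 0 := Subsingleton.elim _ _
      subst hi
      simpa [mulVec, dotProduct] using h1)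
    ext F
    rw [hex]
    refine Finset.sum_eq_zero fun j _ => ?_
    have := congrFun hu j
    simp only [Pi.zero_apply] at this
    rw [this, mul_zero]
  · have hW := hA (Submodule.span ℂ {w | ∃ F ∈ G.h1, ∃ u, w = F *ᵥ u}) (by
      intro X hX w hw
      induction hw using Submodule.span_induction with
      | mem w hw =>
        obtain ⟨F, hF, u, rfl⟩ := hw
        have h1 : X.1 *ᵥ (F *ᵥ u) = (X.1 * F - F * X.2) *ᵥ u + F *ᵥ (X.2 *ᵥ u) := by
          rw [sub_mulVec, mulVec_mulVec, mulVec_mulVec]; abel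
        rw [h1]
        exact Submodule.add_mem _ (Submodule.subset_span ⟨_, G.b01 X hX F hF, u, rfl⟩)
          (Submodule.subset_span ⟨F, hF, _, rfl⟩)
      | zero => rw [mulVec_zero]; exact Submodule.zero_mem _
      | add a b _ _ ha hb => rw [mulVec_add]; exact Submodule.add_mem _ ha hb
      | smul c a _ ha => rw [mulVec_smul]; exact Submodule.smul_mem _ c ha)
    have hWt : Submodule.span ℂ {w | ∃ F ∈ G.h1, ∃ u, w = F *ᵥ u} = ⊤ := by
      rcases hW with h | h
      · exfalso
        have h1 := hB (fun _ => 1) (by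
          intro F hF
          have : F *ᵥ (fun _ => 1) ∈ Submodule.span ℂ {w | ∃ F ∈ G.h1, ∃ u, w = F *ᵥ u} :=
            Submodule.subset_span ⟨F, hF, _, rfl⟩
          rw [h] at this
          exact (Submodule.mem_bot ℂ).1 this)
        have := congrFun h1 ⟨0, hq⟩
        simp at this
      · exact h
    have hall : ∀ (w : Fin p → ℂ) (v : Fin q → ℂ), vecMulVec w v ∈ G.h1 := by
      intro w v
      have hw : w ∈ Submodule.span ℂ {w | ∃ F ∈ G.h1, ∃ u, w = F *ᵥ u} := by
        rw [hWt]; exact Submodule.mem_top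
      induction hw using Submodule.span_induction with
      | mem w hw =>
        obtain ⟨F, hF, u, rfl⟩ := hw
        have : vecMulVec (F *ᵥ u) v = F * vecMulVec u v := by
          rw [mul_vecMulVec]
        rw [this]
        exact hst F hF _
      | zero => rw [zero_vecMulVec]; exact Submodule.zero_mem _
      | add a b _ _ ha hb => rw [add_vecMulVec]; exact Submodule.add_mem _ ha hb
      | smul c a _ ha => rw [smul_vecMulVec]; exact Submodule.smul_mem _ c ha
    rw [eq_top_iff]
    intro F _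
    have : F = ∑ i, vecMulVec (Pi.single i 1) (F i) := by
      ext i j
      rw [Matrix.sum_apply]
      simp [vecMulVec_apply, Pi.single_apply]
    rw [this]
    exact Submodule.sum_mem _ fun i _ => hall _ _

theorem h0_left {p q : ℕ} (G : Gr p q) (hq : 0 < q ∨ p = 1) (h1 : G.h1 = ⊤)
    (A : Matrix (Fin p) (Fin p) ℂ) :
    ((A, 0) : Matrix (Fin p) (Fin p) ℂ × Matrix (Fin q) (Fin q) ℂ) ∈ G.h0 := by
  rcases hq with hq | rfl
  · have h2 : ∀ i j : Fin p, ((single i j 1, 0) :
        Matrix (Fin p) (Fin p) ℂ × Matrix (Fin q) (Fin q) ℂ) ∈ G.h0 := by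
      intro i j
      have h3 := G.b1s (single i ⟨0, hq⟩ 1) (h1 ▸ Submodule.mem_top) (single j ⟨0, hq⟩ 1)
        (h1 ▸ Submodule.mem_top)
      rw [conjTranspose_single, star_one, single_mul_single_same, mul_one] at h3
      by_cases hij : j = i
      · subst hij
        rw [single_mul_single_same, transpose_single, sub_self] at h3
        exact h3
      · rw [single_mul_single_of_ne _ _ _ _ hij, transpose_zero, sub_zero] at h3
        exact h3
    have h4 : ((A, 0) : Matrix (Fin p) (Fin p) ℂ × Matrix (Fin q) (Fin q) ℂ)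
        = ∑ i, ∑ j, A i j • ((single i j 1, 0) :
          Matrix (Fin p) (Fin p) ℂ × Matrix (Fin q) (Fin q) ℂ) := by
      refine Prod.ext ?_ ?_
      · rw [Prod.fst_sum]
        conv_lhs => rw [show ((A, (0 : Matrix (Fin q) (Fin q) ℂ)).1) = A from rfl,
          matrix_eq_sum_single A]
        refine Finset.sum_congr rfl fun i _ => ?_
        rw [Prod.fst_sum]
        refine Finset.sum_congr rfl fun j _ => ?_
        rw [Prod.smul_fst, smul_single, smul_eq_mul, mul_one]
      · rw [Prod.snd_sum]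
        symm
        refine Finset.sum_eq_zero fun i _ => ?_
        rw [Prod.snd_sum]
        refine Finset.sum_eq_zero fun j _ => ?_
        rw [Prod.smul_snd, smul_zero]
    rw [h4]
    exact Submodule.sum_mem _ fun i _ => Submodule.sum_mem _ fun j _ =>
      Submodule.smul_mem _ _ (h2 i j)
  · have : ((A, 0) : Matrix (Fin 1) (Fin 1) ℂ × Matrix (Fin q) (Fin q) ℂ)
        = A 0 0 • ((1, 0) : Matrix (Fin 1) (Fin 1) ℂ × Matrix (Fin q) (Fin q) ℂ) := by
      refine Prod.ext ?_ ?_
      · ext i j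
        have hi : i = 0 := Subsingleton.elim _ _
        have hj : j = 0 := Subsingleton.elim _ _
        subst hi; subst hj
        simp
      · simp
    rw [this]
    exact Submodule.smul_mem _ _ G.one

theorem skew_eq {n : ℕ} (E : Matrix (Fin n) (Fin n) ℂ) (hE : Eᵀ = -E) :
    E = ∑ a, ∑ b, (E a b / 2) • (single a b (1 : ℂ) - single b a 1) := by
  have h1 : E = (1 / 2 : ℂ) • (E - Eᵀ) := by
    rw [hE, sub_neg_eq_add, ← two_smul ℂ E, smul_smul]; norm_num
  have h2 : E = ∑ a, ∑ b, E a b • single a b (1 : ℂ) := by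
    conv_lhs => rw [matrix_eq_sum_single E]
    refine Finset.sum_congr rfl fun a _ => Finset.sum_congr rfl fun b _ => ?_
    rw [smul_single, smul_eq_mul, mul_one]
  have h3 : Eᵀ = ∑ a, ∑ b, E a b • single b a (1 : ℂ) := by
    conv_lhs => rw [h2]
    rw [transpose_sum]
    refine Finset.sum_congr rfl fun a _ => ?_
    rw [transpose_sum]
    refine Finset.sum_congr rfl fun b _ => ?_
    rw [transpose_smul, transpose_single]
  have h5 : E - Eᵀ = (∑ a, ∑ b, E a b • single a b (1 : ℂ))
      - ∑ a, ∑ b, E a b • single b a (1 : ℂ) := by rw [← h3, ← h2]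
  conv_lhs => rw [h1, h5]
  rw [← Finset.sum_sub_distrib, Finset.smul_sum]
  refine Finset.sum_congr rfl fun a _ => ?_
  rw [← Finset.sum_sub_distrib, Finset.smul_sum]
  refine Finset.sum_congr rfl fun b _ => ?_
  rw [← smul_sub, smul_smul]
  congr 1
  ring

theorem h0_right {p q : ℕ} (G : Gr p q) (hp : 0 < p) (h1 : G.h1 = ⊤)
    (E : Matrix (Fin q) (Fin q) ℂ) (hE : Eᵀ = -E) :
    ((0, E) : Matrix (Fin p) (Fin p) ℂ × Matrix (Fin q) (Fin q) ℂ) ∈ G.h0 := by
  have h2 : ∀ a b : Fin q, ((0, single a b 1 - single b a 1) :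
        Matrix (Fin p) (Fin p) ℂ × Matrix (Fin q) (Fin q) ℂ) ∈ G.h0 := by
    intro a b
    by_cases hab : a = b
    · subst hab
      rw [sub_self]
      exact G.h0.zero_mem
    have h3 := G.b1s (single ⟨0, hp⟩ a 1) (h1 ▸ Submodule.mem_top) (single ⟨0, hp⟩ b 1)
      (h1 ▸ Submodule.mem_top)
    rw [conjTranspose_single, star_one, single_mul_single_of_ne _ _ _ _ hab,
      single_mul_single_same, transpose_single, mul_one] at h3
    exact h3
  have h4 : ((0, E) : Matrix (Fin p) (Fin p) ℂ × Matrix (Fin q) (Fin q) ℂ)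
        = ∑ a, ∑ b, (E a b / 2) • ((0, single a b 1 - single b a 1) :
          Matrix (Fin p) (Fin p) ℂ × Matrix (Fin q) (Fin q) ℂ) := by
    refine Prod.ext ?_ ?_
    · rw [Prod.fst_sum]
      symm
      refine Finset.sum_eq_zero fun i _ => ?_
      rw [Prod.fst_sum]
      refine Finset.sum_eq_zero fun j _ => ?_
      rw [Prod.smul_fst, smul_zero]
    · rw [Prod.snd_sum]
      conv_lhs => rw [show (((0 : Matrix (Fin p) (Fin p) ℂ), E).2) = E from rfl, skew_eq E hE]
      refine Finset.sum_congr rfl fun i _ => ?_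
      rw [Prod.snd_sum]
      refine Finset.sum_congr rfl fun j _ => ?_
      rw [Prod.smul_snd]
  rw [h4]
  exact Submodule.sum_mem _ fun i _ => Submodule.sum_mem _ fun j _ =>
      Submodule.smul_mem _ _ (h2 i j)

theorem h2_all {p q : ℕ} (G : Gr p q) (hq : 0 < q ∨ p = 1) (h1 : G.h1 = ⊤)
    (C : Matrix (Fin p) (Fin p) ℂ) (hC : Cᵀ = -C) : C ∈ G.h2 := by
  rcases hq with hq | rfl
  · have h2 : ∀ i j : Fin p, single i j (1 : ℂ) - single j i 1 ∈ G.h2 := by
      intro i j
      have h3 := G.b11 (single j ⟨0, hq⟩ 1) (h1 ▸ Submodule.mem_top) (single i ⟨0, hq⟩ 1)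
        (h1 ▸ Submodule.mem_top)
      rw [transpose_single, transpose_single, single_mul_single_same, single_mul_single_same,
        mul_one] at h3
      exact h3
    rw [skew_eq C hC]
    exact Submodule.sum_mem _ fun i _ => Submodule.sum_mem _ fun j _ =>
      Submodule.smul_mem _ _ (h2 i j)
  · have : C = 0 := by
      ext i j
      have hi : i = 0 := Subsingleton.elim _ _
      have hj : j = 0 := Subsingleton.elim _ _
      subst hi; subst hj
      have := congrFun (congrFun hC 0) 0
      simp only [transpose_apply, Matrix.neg_apply] at this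
      have h2 : (2 : ℂ) * C 0 0 = 0 := by linear_combination this
      simpa using h2
    rw [this]; exact G.h2.zero_mem

theorem fin : S_fin := by
  intro p q G hp hq h1 Z hZ
  obtain ⟨A, B, C, D, E, K, L, M, N, rfl⟩ : ∃ (A : Matrix (Fin p) (Fin p) ℂ)
      (B : Matrix (Fin p) (Fin q) ℂ) (C : Matrix (Fin p) (Fin p) ℂ)
      (D : Matrix (Fin q) (Fin p) ℂ) (E : Matrix (Fin q) (Fin q) ℂ)
      (K : Matrix (Fin q) (Fin p) ℂ) (L : Matrix (Fin p) (Fin p) ℂ)
      (M : Matrix (Fin p) (Fin q) ℂ) (N : Matrix (Fin p) (Fin p) ℂ),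
      Z = fromBlocks A (fromCols B C) (fromRows D L) (fromBlocks E K M N) := by
    refine ⟨Z.toBlocks₁₁, Z.toBlocks₁₂.toCols₁, Z.toBlocks₁₂.toCols₂, Z.toBlocks₂₁.toRows₁,
      Z.toBlocks₂₂.toBlocks₁₁, Z.toBlocks₂₂.toBlocks₁₂, Z.toBlocks₂₁.toRows₂,
      Z.toBlocks₂₂.toBlocks₂₁, Z.toBlocks₂₂.toBlocks₂₂, ?_⟩
    rw [fromCols_toCols, fromRows_toRows, fromBlocks_toBlocks, fromBlocks_toBlocks]
  have e : ∀ x y, (((fromBlocks A (fromCols B C) (fromRows D L) (fromBlocks E K M N) :
      Matrix (I p q) (I p q) ℂ)ᵀ * B0 p q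
      + B0 p q * fromBlocks A (fromCols B C) (fromRows D L) (fromBlocks E K M N)) x y) = 0 := by
    intro x y; rw [hZ]; rfl
  have hL : Lᵀ = -L := by
    ext i j
    have := e (Sum.inl i) (Sum.inl j)
    simp [B0, Matrix.mul_apply, Fintype.sum_sum_type, Matrix.one_apply] at this
    exact eq_neg_of_add_eq_zero_left this
  have hM : M = -Dᵀ := by
    ext i j
    have := e (Sum.inl i) (Sum.inr (Sum.inl j))
    simp [B0, Matrix.mul_apply, Fintype.sum_sum_type, Matrix.one_apply] at this
    exact eq_neg_of_add_eq_zero_right this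
  have hN : N = -Aᵀ := by
    ext i j
    have := e (Sum.inl i) (Sum.inr (Sum.inr j))
    simp [B0, Matrix.mul_apply, Fintype.sum_sum_type, Matrix.one_apply] at this
    exact eq_neg_of_add_eq_zero_right this
  have hE : Eᵀ = -E := by
    ext i j
    have := e (Sum.inr (Sum.inl i)) (Sum.inr (Sum.inl j))
    simp [B0, Matrix.mul_apply, Fintype.sum_sum_type, Matrix.one_apply] at this
    exact eq_neg_of_add_eq_zero_left this
  have hK : K = -Bᵀ := by
    ext i j
    have := e (Sum.inr (Sum.inl i)) (Sum.inr (Sum.inr j))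
    simp [B0, Matrix.mul_apply, Fintype.sum_sum_type, Matrix.one_apply] at this
    exact eq_neg_of_add_eq_zero_right this
  have hC : Cᵀ = -C := by
    ext i j
    have := e (Sum.inr (Sum.inr i)) (Sum.inr (Sum.inr j))
    simp [B0, Matrix.mul_apply, Fintype.sum_sum_type, Matrix.one_apply] at this
    exact eq_neg_of_add_eq_zero_left this
  have hL' : (Lᴴ)ᵀ = -Lᴴ := by
    have h := congrArg conjTranspose hL
    rw [conjTranspose_neg] at h
    rw [← h]
    ext i j; simp
  have m0 : (A, E) ∈ G.h0 := by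
    have := G.h0.add_mem (h0_left G hq h1 A) (h0_right G hp h1 E hE)
    simpa using this
  have key : (fromBlocks A (fromCols B C) (fromRows D L) (fromBlocks E K M N) :
      Matrix (I p q) (I p q) ℂ)
      = big0 (A, E) + big1 B + (big1 Dᴴ)ᴴ + big2 C + (big2 Lᴴ)ᴴ := by
    rw [hM, hN, hK]
    ext x y
    rcases x with x | x | x <;> rcases y with y | y | y <;>
      simp [big0, big1, big2, conjTranspose_apply]
  rw [key]
  refine Submodule.add_mem _ (Submodule.add_mem _ (Submodule.add_mem _ (Submodule.add_mem _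
    ?_ ?_) ?_) ?_) ?_
  · exact Submodule.subset_span (Or.inl ⟨_, m0, rfl⟩)
  · exact Submodule.subset_span (Or.inr (Or.inl ⟨B, h1 ▸ Submodule.mem_top, Or.inl rfl⟩))
  · exact Submodule.subset_span (Or.inr (Or.inl ⟨Dᴴ, h1 ▸ Submodule.mem_top, Or.inr rfl⟩))
  · exact Submodule.subset_span (Or.inr (Or.inr ⟨C, h2_all G hq h1 C hC, Or.inl rfl⟩))
  · exact Submodule.subset_span (Or.inr (Or.inr ⟨Lᴴ, h2_all G hq h1 Lᴴ hL', Or.inr rfl⟩))

end Pool.Agent.W85.PG
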